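import Mathlib

/-! The optimal coherence strictly decreases with the dimension. -/

namespace Pool.Agent.Results.MP_9149b8_co.Strict

open Finset
open scoped RealInnerProductSpace

/-- Worst-case coherence of a sequence of vectors. -/
noncomputable def coh {N M : ℕ} (f : Fin N → EuclideanSpace ℝ (Fin M)) : ℝ :=
  ⨆ p : {p : Fin N × Fin N // p.1 ≠ p.2}, |⟪f p.1.1, f p.1.2⟫|

/-- Optimal coherence of `N` unit vectors in dimension `M`. -/
noncomputable def mu (N M : ℕ) : ℝ :=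
  sInf {c | ∃ f : Fin N → EuclideanSpace ℝ (Fin M), (∀ i, ‖f i‖ = 1) ∧ coh f = c}

lemma le_coh {N M : ℕ} (f : Fin N → EuclideanSpace ℝ (Fin M)) {i j : Fin N} (h : i ≠ j) :
    |⟪f i, f j⟫| ≤ coh f :=
  le_ciSup (f := fun p : {p : Fin N × Fin N // p.1 ≠ p.2} => |⟪f p.1.1, f p.1.2⟫|)
    (Finite.bddAbove_range _) ⟨(i, j), h⟩

lemma coh_nonneg {N M : ℕ} (f : Fin N → EuclideanSpace ℝ (Fin M)) : 0 ≤ coh f :=
  Real.iSup_nonneg fun _ => abs_nonneg _

lemma low {N M : ℕ} (h : M < N) (f : Fin N → EuclideanSpace ℝ (Fin M)) (hf : ∀ i, ‖f i‖ = 1) :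
    1 / (N : ℝ) ≤ coh f := by
  by_contra hc
  push Not at hc
  have hN : (0 : ℝ) < N := by exact_mod_cast (by omega : 0 < N)
  have li : LinearIndependent ℝ f := by
    rw [Fintype.linearIndependent_iff]
    intro a ha
    obtain ⟨i, -, hi⟩ := exists_max_image univ (fun i => |a i|) ⟨⟨0, by omega⟩, mem_univ _⟩
    have e : ∑ j, a j * ⟪f i, f j⟫ = 0 := by
      have := congrArg (fun x => ⟪f i, x⟫) ha
      simpa [inner_sum, inner_smul_right] using this
    rw [← add_sum_erase _ _ (mem_univ i), real_inner_self_eq_norm_sq, hf] at e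
    have e2 : |a i| ≤ ∑ j ∈ univ.erase i, |a i| * coh f := by
      rw [show a i = -∑ j ∈ univ.erase i, a j * ⟪f i, f j⟫ by linarith, abs_neg]
      refine (abs_sum_le_sum_abs _ _).trans (sum_le_sum fun j hj => ?_)
      rw [abs_mul, ← abs_neg (∑ j ∈ univ.erase i, a j * ⟪f i, f j⟫),
        ← show a i = -∑ j ∈ univ.erase i, a j * ⟪f i, f j⟫ by linarith]
      exact mul_le_mul (hi j (mem_univ _)) (le_coh f (ne_of_mem_erase hj).symm) (abs_nonneg _)
        (abs_nonneg _)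
    rw [sum_const, nsmul_eq_mul] at e2
    have e3 : ((univ.erase i).card : ℝ) ≤ N := by
      exact_mod_cast (card_le_univ _).trans (by simp)
    rw [lt_div_iff₀ hN] at hc
    have z : |a i| ≤ 0 := by
      by_contra hz
      push Not at hz
      have := mul_le_mul_of_nonneg_right e3 (mul_nonneg hz.le (coh_nonneg f))
      nlinarith
    intro j
    exact abs_nonpos_iff.1 ((hi j (mem_univ _)).trans z)
  have := li.fintype_card_le_finrank
  simp at this
  omega

lemma key (c x s t r : ℝ) (hr : 0 < r) (hr1 : r ≤ 1) (hc : r ≤ c) (hx : |x| ≤ c) (ht : 0 < t)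
    (ht1 : t ≤ 1) (hs : 0 < s) (hst : s ≤ t * (r / 3)) :
    |t * s + √(1 - t ^ 2) * √(1 - s ^ 2) * x| ≤ c - r * t ^ 2 / 6 := by
  have a1 : √(1 - t ^ 2) ≤ 1 - t ^ 2 / 2 := Real.sqrt_le_iff.2 ⟨by nlinarith, by nlinarith⟩
  have a2 : √(1 - s ^ 2) ≤ 1 := Real.sqrt_le_iff.2 ⟨by nlinarith, by nlinarith⟩
  have b1 := Real.sqrt_nonneg (1 - t ^ 2)
  have b2 := Real.sqrt_nonneg (1 - s ^ 2)
  have a3 : √(1 - t ^ 2) * √(1 - s ^ 2) ≤ 1 - t ^ 2 / 2 := by nlinarith
  refine (abs_add_le _ _).trans ?_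
  rw [abs_mul _ x, abs_of_nonneg (mul_nonneg b1 b2), abs_of_pos (mul_pos ht hs)]
  have a4 := mul_le_mul a3 hx (abs_nonneg _) (by nlinarith)
  have a5 := mul_le_mul_of_nonneg_left hst ht.le
  nlinarith [mul_le_mul_of_nonneg_right hc (sq_nonneg t)]

lemma improve {N M : ℕ} (h : M < N) (f : Fin N → EuclideanSpace ℝ (Fin M)) (hf : ∀ i, ‖f i‖ = 1) :
    ∃ g : Fin N → EuclideanSpace ℝ (Fin (M + 1)), (∀ i, ‖g i‖ = 1) ∧
      coh g ≤ coh f - 1 / N * ((1 / N / 3) ^ N) ^ 2 / 6 := by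
  have hc := low h f hf
  have hN : (1 : ℝ) ≤ N := by exact_mod_cast (by omega : 1 ≤ N)
  set r : ℝ := 1 / N with hr
  have r0 : 0 < r := by positivity
  have r1 : r ≤ 1 := by rw [hr, div_le_one (by positivity)]; exact hN
  have q0 : 0 < r / 3 := by positivity
  have q1 : r / 3 ≤ 1 := by linarith
  let t : Fin N → ℝ := fun i => (r / 3) ^ (i : ℕ)
  have t0 : ∀ i, 0 < t i := fun i => by positivity
  have t1 : ∀ i, t i ≤ 1 := fun i => pow_le_one₀ q0.le q1
  let g : Fin N → EuclideanSpace ℝ (Fin (M + 1)) := fun i =>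
    WithLp.toLp 2 (Fin.cons (t i) fun k => √(1 - t i ^ 2) * f i k)
  have ig : ∀ i j, ⟪g i, g j⟫ = t i * t j + √(1 - t i ^ 2) * √(1 - t j ^ 2) * ⟪f i, f j⟫ := by
    intro i j
    simp only [g, PiLp.inner_apply, Fin.sum_univ_succ, Fin.cons_zero, Fin.cons_succ,
      RCLike.inner_apply, conj_trivial, mul_sum]
    rw [mul_comm]
    congr 1
    exact sum_congr rfl fun k _ => by ring
  refine ⟨g, fun i => ?_, ?_⟩
  · have := ig i i
    rw [real_inner_self_eq_norm_sq, real_inner_self_eq_norm_sq, hf,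
      Real.mul_self_sqrt (by nlinarith [t0 i, t1 i])] at this
    have h2 := norm_nonneg (g i)
    nlinarith
  · have b : ∀ i j : Fin N, i < j → |⟪g i, g j⟫| ≤ coh f - r * ((r / 3) ^ N) ^ 2 / 6 := by
      intro i j hij
      rw [ig]
      refine (key _ _ _ _ r r0 r1 hc (le_coh f hij.ne) (t0 i) (t1 i) (t0 j) ?_).trans ?_
      · simp only [t]
        rw [← pow_succ]
        exact pow_le_pow_of_le_one q0.le q1 hij
      · have : (r / 3) ^ N ≤ t i := pow_le_pow_of_le_one q0.le q1 i.2.le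
        have := pow_le_pow_left₀ (by positivity) this 2
        nlinarith
    refine Real.iSup_le ?_ ?_
    · rintro ⟨⟨i, j⟩, hij⟩
      rcases lt_or_gt_of_ne hij with h | h
      · exact b i j h
      · rw [real_inner_comm]; exact b j i h
    · have : ((r / 3) ^ N) ^ 2 ≤ 1 := pow_le_one₀ (by positivity) (pow_le_one₀ q0.le q1)
      nlinarith

theorem result (N M : ℕ) (_hN : 2 ≤ N) (hM : 1 ≤ M) (hMN : M ≤ N - 1) :
    mu N (M + 1) < mu N M := by
  have h : M < N := by omega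
  have hN : (0 : ℝ) < N := by exact_mod_cast (by omega : 0 < N)
  have d : 0 < 1 / (N : ℝ) * ((1 / N / 3) ^ N) ^ 2 / 6 := by positivity
  have : mu N (M + 1) + 1 / (N : ℝ) * ((1 / N / 3) ^ N) ^ 2 / 6 ≤ mu N M := by
    refine le_csInf ⟨_, fun _ => EuclideanSpace.single ⟨0, hM⟩ 1, fun _ => by simp, rfl⟩ ?_
    rintro _ ⟨f, hf, rfl⟩
    obtain ⟨g, hg, h2⟩ := improve h f hf
    have : mu N (M + 1) ≤ coh g :=
      csInf_le ⟨0, by rintro _ ⟨f, -, rfl⟩; exact coh_nonneg f⟩ ⟨g, hg, rfl⟩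
    linarith
  linarith

end Pool.Agent.Results.MP_9149b8_co.Strict
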